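import Pool.Agent.Lib.MP_f9eb18_lc.H.E

namespace Pool.Agent.Results.MP_f9eb18_lc.MahloContinuum

open Pool.Agent.Lib.MP_f9eb18_lc Pool.Agent.Lib.MP_f9eb18_lc.W

/-- If some transitive (set or class) model of ZFC has `n ≥ 1` Woodin cardinals, then some
countable transitive model `N` of ZFC has `n` Woodin cardinals, `CH` fails in its `C^2(ω)`, the
continuum of that `C^2(ω)` is larger than one of its weakly Mahlo cardinals, and some real of `N`
is not in it. -/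
theorem result (n : ℕ) (hn : 1 ≤ n) (U : Set V) (hU : IsZFC U) (hW : NWoodins U n) :
    ∃ N : Set V, N.Countable ∧ IsZFC N ∧ NWoodins N n ∧ ¬ CHinC2N N ∧
      (∃ κ : Ordinal.{0}, κ.toZFSet ∈ N ∧ WMahlo (C2N N) κ ∧ ∀ β ≤ κ,
        ¬ ∃ f, C2N N f ∧ IsOnto f β.toZFSet (fun b => C2N N b ∧ b ⊆ omegaZ)) ∧
      ∃ x ∈ N, x ⊆ omegaZ ∧ ¬ C2N N x :=
  main_mahlo n hn U hU hW

end Pool.Agent.Results.MP_f9eb18_lc.MahloContinuum
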