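import Pool.Agent.Lib.MP_f9eb18_lc.Cut


namespace Pool.Agent.Results.MP_f9eb18_lc.PsiAC

open Pool.Agent.Lib.MP_f9eb18_lc

/-- Under `MA_{ℵ₁}` and Woodin's `ψ_AC`, if `C^2(ω)` contains an injective `ω₁`-sequence of
reals, then `CH` fails in `C^2(ω)` (the proof shows that `C^2(ω)` contains every real). -/
theorem result (hMA : MA1) (hψ : PsiAC) (hseq : HasOmega1Seq) : ¬ CHinC2 :=
  not_CH hMA hψ hseq

end Pool.Agent.Results.MP_f9eb18_lc.PsiAC
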